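import Mathlib
import Pool.Agent.N233.LP.Law

set_option autoImplicit false

/-!
# The generalized Lenstra–Pomerance–Wagstaff law in random models with a growing sieve

The integers are decided one after the other, no integer `n` with a prime factor at most `z(n)` is
chosen, where `log z(n) ~ log log n` and `z(n) = o(log n)`, and the conditional probability of choosing
`n + 1` (free of primes at most `z(n + 1)`) given the past is asymptotic to
`∏_{q ≤ z(n + 1)} (1 - 1/q)⁻¹ / log n`, almost surely.  No independence and no rate is assumed.  In every such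
model, almost surely, for all coprime pairs `(a, b)` with `a > 1`, `-a < b < a`, at once, the number of
the primes `p ≤ y` for which `(a^p - b^p)/(a - b)` is chosen is `~ e^γ log_a y`.
-/

open MeasureTheory Filter
open scoped Topology

namespace Pool.Agent.Results.MP_de9007_nt.GrowingSieveModels

/-- the number of the primes `p ≤ y` for which `(a^p - b^p)/(a - b)` belongs to `S` -/
noncomputable def N (S : Set ℕ) (a b : ℤ) (y : ℕ) : ℕ :=
  {p : ℕ | p ≤ y ∧ p.Prime ∧ ((a ^ p - b ^ p) / (a - b)).toNat ∈ S}.ncard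

/-- `∏_{q ≤ x} (1 - 1/q)⁻¹`, `q` prime -/
noncomputable def W (x : ℕ) : ℝ := ∏ q ∈ (Finset.Icc 1 x).filter Nat.Prime, (1 - (q : ℝ)⁻¹)⁻¹

/-- **The Lenstra–Pomerance–Wagstaff law in models with a growing sieve.**  Let `S n` be the event that
`n` is chosen, adapted to a filtration `ℱ`.  Let `z(n)` be natural numbers with
`log z(n) / log log n → 1` and `z(n) / log n → 0`, let no `n` with a prime factor at most `z(n)` be
chosen, and let the conditional probability of `S (n + 1)` given `ℱ n`, times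
`log n / ∏_{q ≤ z(n + 1)} (1 - 1/q)⁻¹`, tend to `1` along the `n` for which `n + 1` has no prime factor at
most `z(n + 1)`, almost surely.  Then almost surely, for all coprime integers `a`, `b` with `a > 1` and
`-a < b < a`: the number of the primes `p ≤ y` for which `(a^p - b^p)/(a - b)` is chosen, divided by
`log_a y`, tends to `e^γ`; in particular there are infinitely many such `p`. -/
theorem result {Ω : Type} [mΩ : MeasurableSpace Ω] (μ : Measure Ω) [IsProbabilityMeasure μ]
    (ℱ : Filtration ℕ mΩ) (S : ℕ → Set Ω) (hS : ∀ n, MeasurableSet[ℱ n] (S n)) (z : ℕ → ℕ)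
    (hz : Tendsto (fun n : ℕ => Real.log (z n) / Real.log (Real.log n)) atTop (𝓝 1))
    (hz2 : Tendsto (fun n : ℕ => (z n : ℝ) / Real.log n) atTop (𝓝 0))
    (hsieve : ∀ n, (∃ q, q.Prime ∧ q ≤ z n ∧ q ∣ n) → S n = ∅)
    (hd : ∀ᵐ ω ∂μ, Tendsto (fun n : ℕ =>
      (μ[(S (n + 1)).indicator (fun _ => (1 : ℝ)) | ℱ n]) ω * Real.log n / W (z (n + 1)))
      (atTop ⊓ 𝓟 {n : ℕ | ∀ q, q.Prime → q ≤ z (n + 1) → ¬ q ∣ n + 1}) (𝓝 1)) :
    ∀ᵐ ω ∂μ, ∀ a b : ℤ, IsCoprime a b → 1 < a → -a < b → b < a →
      Tendsto (fun y : ℕ => (N {n | ω ∈ S n} a b y : ℝ) / (Real.log y / Real.log a)) atTop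
        (𝓝 (Real.exp Real.eulerMascheroniConstant)) ∧
      {p : ℕ | p.Prime ∧ ω ∈ S ((a ^ p - b ^ p) / (a - b)).toNat}.Infinite := by
  have hcop : ∀ n, ¬ Pool.Agent.N233.LP.Rough z n → S n = ∅ := by
    intro n hn
    unfold Pool.Agent.N233.LP.Rough at hn
    push Not at hn
    exact hsieve n hn
  have hprof := Pool.Agent.N233.LP.profile (μ := μ) (ℱ := ℱ) (A := S) z hz hcop hd
  have key : ∀ᵐ ω ∂μ, ∀ a b : ℤ, IsCoprime a b → 1 < a → -a < b → b < a →
      Tendsto (fun y : ℕ => (N {n | ω ∈ S n} a b y : ℝ) / (Real.log y / Real.log a)) atTop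
        (𝓝 (Real.exp Real.eulerMascheroniConstant)) := by
    rw [ae_all_iff]
    intro a
    rw [ae_all_iff]
    intro b
    by_cases h : IsCoprime a b ∧ 1 < a ∧ -a < b ∧ b < a
    · obtain ⟨h1, h2, h3, h4⟩ := h
      filter_upwards [Pool.Agent.N233.LP.pair_law (μ := μ) hS z hz hz2 hprof a b h2 h3 h4 h1] with ω hω _ _ _ _
      exact hω
    · exact Eventually.of_forall fun ω h1 h2 h3 h4 => absurd ⟨h1, h2, h3, h4⟩ h
  filter_upwards [key] with ω hω a b hab ha h1 h2
  refine ⟨hω a b hab ha h1 h2, ?_⟩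
  intro hfin
  have ha' : (1 : ℝ) < a := by exact_mod_cast ha
  have hla : 0 < Real.log a := Real.log_pos ha'
  have hlog : Tendsto (fun y : ℕ => Real.log (y : ℝ) / Real.log a) atTop atTop :=
    Pool.Agent.N233.LP.logN.atTop_div_const hla
  have h0 : Tendsto (fun y : ℕ => (N {n | ω ∈ S n} a b y : ℝ) / (Real.log y / Real.log a)) atTop (𝓝 0) := by
    have k1 : Tendsto (fun y : ℕ => ({p : ℕ | p.Prime ∧ ω ∈ S ((a ^ p - b ^ p) / (a - b)).toNat}.ncard : ℝ) /
        (Real.log y / Real.log a)) atTop (𝓝 0) := Tendsto.div_atTop tendsto_const_nhds hlog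
    refine squeeze_zero' ?_ ?_ k1
    · filter_upwards [hlog.eventually_gt_atTop 0] with y hy
      positivity
    · filter_upwards [hlog.eventually_gt_atTop 0] with y hy
      apply div_le_div_of_nonneg_right _ hy.le
      have hsub : {p : ℕ | p ≤ y ∧ p.Prime ∧ ((a ^ p - b ^ p) / (a - b)).toNat ∈ {n | ω ∈ S n}} ⊆
          {p : ℕ | p.Prime ∧ ω ∈ S ((a ^ p - b ^ p) / (a - b)).toNat} := fun p hp => hp.2
      exact_mod_cast Set.ncard_le_ncard hsub hfin
  have h3 := tendsto_nhds_unique (hω a b hab ha h1 h2) h0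
  have := Real.exp_pos Real.eulerMascheroniConstant
  linarith

end Pool.Agent.Results.MP_de9007_nt.GrowingSieveModels
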