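import Mathlib
import Pool.Agent.N176.GP.Fin
import Pool.Agent.N176.OW.All3

set_option autoImplicit false

/-!
# The number of exponents in a thin set of primes is asymptotically Poisson

For an integer `a ≥ 2`, a real `β > 0` and a prime `p` let `W a β p` be the `p`-rough part (the
product, with multiplicity, of the prime factors larger than `p`) of the largest integer below
`β * a ^ p`.  For `β = 1 / (a - 1)` and `p` prime to `a - 1` this is `(a ^ p - 1) / (a - 1)` itself,
the number of the conjecture for the pair `(a, 1)`.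

The conjecture says that the exponents `p` with `(a ^ p - 1) / (a - 1)` prime behave like the points
of a Poisson process of intensity `e ^ γ / log a` on the scale `log p`, that is with the mean
`(e ^ γ / log a) ∑ log p / p` over the primes `p` of a set.  We prove the Poisson law itself, in the
space of the amplitudes `β`: let `T n` be finite sets of primes with least element tending to
infinity, such that the sums of `log p / p` over the elements in dyadic intervals `(x, 2 x]` tend to
zero uniformly in `x`, and with few close pairs (the sum of `log p / (p a ^ (q - p))` over the pairs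
`p < q` in `T n` tends to zero; for instance the differences tend to infinity).  If the mean
`(e ^ γ / log a) ∑ log p / p` over `T n` tends to `lam`, then the number of the `p` in `T n` with
`W a β p` prime has asymptotically the Poisson law with parameter `lam`, for `β` in every interval.
-/

namespace Pool.Agent.Results.MP_de9007_nt.PoissonLaw

open Filter Topology MeasureTheory

/-- The product, with multiplicity, of the prime factors of `m` that are larger than `p`. -/
def roughPart (p m : ℕ) : ℕ := (m.primeFactorsList.filter (fun r => p < r)).prod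

/-- The `p`-rough part of the largest integer below `β * a ^ p`. -/
noncomputable def W (a : ℕ) (β : ℝ) (p : ℕ) : ℕ := roughPart p (⌈β * (a : ℝ) ^ p⌉₊ - 1)

/-- The constant of the law, `e ^ γ / log a`. -/
noncomputable def κ (a : ℕ) : ℝ := Real.exp Real.eulerMascheroniConstant / Real.log a

/-- all prime factors of `(b ^ p - 1) / (b - 1)` are large -/
lemma lt_of_dvd_repunit {b p r : ℕ} (hb : 2 ≤ b) (hp : p.Prime) (hpb : ¬ p ∣ b - 1) (hr : r.Prime)
    (h : r ∣ (b ^ p - 1) / (b - 1)) : p < r := by
  haveI : Fact p.Prime := ⟨hp⟩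
  haveI : Fact r.Prime := ⟨hr⟩
  have hdiv : (b - 1) ∣ b ^ p - 1 := by
    have h := Nat.sub_dvd_pow_sub_pow b 1 p
    rwa [one_pow] at h
  have hgeom : (∑ i ∈ Finset.range p, b ^ i) = (b ^ p - 1) / (b - 1) :=
    Nat.geomSum_eq hb p
  have h0 : r ∣ b ^ p - 1 := h.trans (Nat.div_dvd_of_dvd hdiv)
  have h1 : (b : ZMod r) ^ p = 1 := by
    have h2 : ((b ^ p - 1 : ℕ) : ZMod r) = 0 := (ZMod.natCast_eq_zero_iff _ _).2 h0
    rw [Nat.cast_sub (Nat.one_le_pow _ _ (by omega))] at h2
    push_cast at h2
    exact sub_eq_zero.1 h2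
  have h2 : (b : ZMod r) ≠ 1 := by
    intro h3
    rw [← hgeom] at h
    have h4 : ((∑ i ∈ Finset.range p, b ^ i : ℕ) : ZMod r) = 0 := (ZMod.natCast_eq_zero_iff _ _).2 h
    push_cast at h4
    rw [h3] at h4
    simp only [one_pow, Finset.sum_const, Finset.card_range, nsmul_eq_mul, mul_one] at h4
    have h5 : r ∣ p := (ZMod.natCast_eq_zero_iff _ _).1 h4
    have h6 : r = p := (Nat.prime_dvd_prime_iff_eq hr hp).1 h5
    subst h6
    apply hpb
    rw [← ZMod.natCast_eq_zero_iff, Nat.cast_sub (by omega), h3]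
    simp
  have h3 : orderOf (b : ZMod r) = p := orderOf_eq_prime h1 h2
  have h4 : (b : ZMod r) ≠ 0 := by
    intro h5
    rw [h5, zero_pow hp.ne_zero] at h1
    exact zero_ne_one h1
  have h5 : p ∣ r - 1 := by
    rw [← h3]
    exact orderOf_dvd_of_pow_eq_one (ZMod.pow_card_sub_one_eq_one h4)
  have h6 := Nat.le_of_dvd (by have := hr.one_lt; omega) h5
  have h7 := hr.one_lt
  omega

/-- the special value -/
lemma special {a p : ℕ} (ha : 2 ≤ a) (hp : p.Prime) (hpa : ¬ p ∣ a - 1) :
    W a (1 / ((a : ℝ) - 1)) p = (a ^ p - 1) / (a - 1) := by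
  have hgeom : (∑ i ∈ Finset.range p, a ^ i) = (a ^ p - 1) / (a - 1) := Nat.geomSum_eq ha p
  rw [← hgeom]
  set R := ∑ i ∈ Finset.range p, a ^ i with hR
  have ha1 : (1 : ℝ) ≤ (a : ℝ) - 1 := by
    have : (2 : ℝ) ≤ a := by exact_mod_cast ha
    linarith
  have ha0 : (a : ℝ) - 1 ≠ 0 := by linarith
  have hRr : (R : ℝ) * ((a : ℝ) - 1) = (a : ℝ) ^ p - 1 := by
    have h := geom_sum_mul (a : ℝ) p
    rw [hR]
    push_cast
    linarith
  have e : (1 / ((a : ℝ) - 1)) * (a : ℝ) ^ p = R + 1 / ((a : ℝ) - 1) := by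
    field_simp
    linarith
  have h1a : 0 < 1 / ((a : ℝ) - 1) := by positivity
  have h1b : 1 / ((a : ℝ) - 1) ≤ 1 := by
    rw [div_le_one (by linarith)]
    exact ha1
  have hceil : ⌈(1 / ((a : ℝ) - 1)) * (a : ℝ) ^ p⌉₊ = R + 1 := by
    rw [e, Nat.ceil_eq_iff (Nat.succ_ne_zero R)]
    push_cast
    constructor
    · linarith
    · linarith
  unfold W
  rw [hceil, Nat.add_sub_cancel]
  unfold roughPart
  have hR0 : R ≠ 0 := by
    intro h0
    have hmem : a ^ 0 ≤ R := by
      rw [hR]
      exact Finset.single_le_sum (f := fun i => a ^ i) (fun i _ => Nat.zero_le _)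
        (Finset.mem_range.2 hp.pos)
    rw [h0] at hmem
    simp at hmem
  rw [List.filter_eq_self.2, Nat.prod_primeFactorsList hR0]
  intro r hr
  have h1 := Nat.dvd_of_mem_primeFactorsList hr
  rw [hgeom] at h1
  have := lt_of_dvd_repunit ha hp hpa (Nat.prime_of_mem_primeFactorsList hr) h1
  simpa using this

/-- At the amplitude `1 / (a - 1)` the numbers are those of the conjecture for the pair `(a, 1)`; the
Poisson law for thin sets of exponents, in every base, in every interval of amplitudes. -/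
theorem result :
    (∀ a : ℕ, 2 ≤ a → ∀ p : ℕ, p.Prime → ¬ p ∣ a - 1 →
      W a (1 / ((a : ℝ) - 1)) p = (a ^ p - 1) / (a - 1)) ∧
    (∀ a : ℕ, 2 ≤ a → ∀ T : ℕ → Finset ℕ, (∀ n, ∀ p ∈ T n, p.Prime) →
      (∀ M : ℕ, ∀ᶠ n in atTop, ∀ p ∈ T n, M < p) →
      (∀ δ : ℝ, 0 < δ → ∀ᶠ n in atTop, ∀ x : ℕ,
        ∑ p ∈ (T n).filter (fun p => x < p ∧ p ≤ 2 * x), Real.log p / p ≤ δ) →
      Tendsto (fun n => ∑ q ∈ T n, ∑ p ∈ (T n).filter (fun p => p < q),
        Real.log p / p / (a : ℝ) ^ (q - p)) atTop (𝓝 0) →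
      ∀ lam : ℝ, Tendsto (fun n => κ a * ∑ p ∈ T n, Real.log p / p) atTop (𝓝 lam) →
      ∀ u v : ℝ, 0 ≤ u → u < v → ∀ k : ℕ,
        Tendsto (fun n => (volume {β : ℝ | u < β ∧ β ≤ v ∧
          ((T n).filter (fun p => (W a β p).Prime)).card = k}).toReal) atTop
          (𝓝 ((v - u) * (Real.exp (-lam) * lam ^ k / k.factorial)))) := by
  refine ⟨fun a ha p hp hpa => special ha hp hpa, ?_⟩
  intro a ha T hT hM hδ hE lam hlam u v hu huv k
  exact Pool.Agent.N176.OW.All.p4 a ha T hT hM hδ hE lam hlam u v hu huv k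

end Pool.Agent.Results.MP_de9007_nt.PoissonLaw
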