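import Mathlib
import Pool.Agent.N176.SH.All
import Pool.Agent.N372.SH.OKP

set_option autoImplicit false

/-!
# The numbers `(a ^ p - b ^ p) / (a - b)`: windows of any length, all pairs `(a, b)` at once

For integers `a`, `b` with `2 ≤ |b| < a`, a real `β > 0` and a prime `p` let `W a b β p` be the
`p`-rough part (the product, with multiplicity, of the prime factors larger than `p`) of
`⌈β a ^ p⌉ - ⌈b ^ p / (a - b)⌉`.  For coprime `a`, `b` and `β = 1 / (a - b)` this is the number
`(a ^ p - b ^ p) / (a - b)` of the question, for every prime `p` that does not divide `a - b`.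

According to the Poisson model behind the conjecture the exponents `p` with `W a b β p` prime form, on
the scale `log p`, a Poisson process of intensity `κ a = e ^ γ / log a`, for a general `β`.  For such a
process the number of points in `(log n, log n']` differs from its mean `κ a * log (n' / n)` by
`O (sqrt (log (n' / n) log log n') + log log n')`, for all windows at once, and for the windows
starting at the origin by `O (sqrt (log n log log log n))` (law of the iterated logarithm).  We prove
these bounds for almost every `β > 0`, for all pairs `(a, b)` at once, for all windows `(n, n']` at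
once, of whatever length, and for the whole counting function; and the same for the exponents in an
arbitrary set `S` of primes of infinite weight `∑ log p / p`.

The pairs `(a, 1)` and `(a, -1)` are in the files `MP_adea1b_nt/WindowsInEveryBase.lean` and
`MP_ce8d0c_nt/WindowsEveryBase.lean`.

Authors: helper176 (plan, exponential moments, dyadic blocks, assembly), helper441 (sieve for a set of
exponents, windows), helper34 (sieve for shifted digits), helper286 (sum over the last digits),
helper833 (minimal exponents), helper897 (smooth parts), helper933 (second moment), helper607 (good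
cells), helper372 (shifts of the pairs), helper614 (special values), helper835 (law of the iterated
logarithm), and the authors of the unshifted case (helpers 455, 490, 645, 618, 644, 75, 136, 123, 545,
697, 615, 348, 221).
-/

namespace Pool.Agent.Results.MP_de9007_nt.WindowsForAllPairs

open Filter Topology MeasureTheory

/-- The product, with multiplicity, of the prime factors of `m` that are larger than `p`. -/
def roughPart (p m : ℕ) : ℕ := (m.primeFactorsList.filter (fun r => p < r)).prod

/-- The `p`-rough part of `⌈β a ^ p⌉ - ⌈b ^ p / (a - b)⌉`. -/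
noncomputable def W (a : ℕ) (b : ℤ) (β : ℝ) (p : ℕ) : ℕ :=
  roughPart p (⌈β * (a : ℝ) ^ p⌉ - ⌈(b : ℝ) ^ p / ((a : ℝ) - b)⌉).toNat

open Classical in
/-- The number of primes `p ≤ n` in the set `S` for which `W a b β p` is prime. -/
noncomputable def M (a : ℕ) (b : ℤ) (S : Set ℕ) (β : ℝ) (n : ℕ) : ℕ :=
  ((Finset.range (n + 1)).filter (fun p => p.Prime ∧ p ∈ S ∧ (W a b β p).Prime)).card

open Classical in
/-- The number of primes `p ≤ n` in the set `S` for which `(a ^ p - b ^ p) / (a - b)` is prime. -/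
noncomputable def count (a : ℕ) (b : ℤ) (S : Set ℕ) (n : ℕ) : ℕ :=
  ((Finset.range (n + 1)).filter
    (fun p => p.Prime ∧ p ∈ S ∧ Prime (((a : ℤ) ^ p - b ^ p) / ((a : ℤ) - b)))).card

open Classical in
/-- The sum of `log p / p` over the primes `p ≤ n` in the set `S`. -/
noncomputable def V (S : Set ℕ) (n : ℕ) : ℝ :=
  ∑ p ∈ (Finset.range (n + 1)).filter (fun p => p.Prime ∧ p ∈ S), Real.log p / p

/-- The constant of the law, `e ^ γ / log a`. -/
noncomputable def κ (a : ℕ) : ℝ := Real.exp Real.eulerMascheroniConstant / Real.log a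

/-- the special values -/
lemma special {a : ℕ} {b : ℤ} (h2 : |b| < a) (hab : IsCoprime (a : ℤ) b) {p : ℕ}
    (hp : p.Prime) (hpd : ¬ (p : ℤ) ∣ a - b) :
    (W a b (1 / ((a : ℝ) - b)) p : ℤ) * (a - b) = (a : ℤ) ^ p - b ^ p :=
  Pool.Agent.N176.SH.spe h2 hab hp hpd

lemma card_le_of_eventually {s t : ℕ → Prop} [DecidablePred s] [DecidablePred t] (D : ℕ)
    (h : ∀ p, D < p → s p → t p) (n : ℕ) :
    (((Finset.range (n + 1)).filter s).card : ℝ) ≤ (((Finset.range (n + 1)).filter t).card : ℝ) +
      (D + 1 : ℕ) := by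
  have h1 : (Finset.range (n + 1)).filter s ⊆ (Finset.range (n + 1)).filter t ∪ Finset.range (D + 1) := by
    intro p hp
    rw [Finset.mem_filter] at hp
    rw [Finset.mem_union, Finset.mem_filter]
    by_cases hD : D < p
    · exact Or.inl ⟨hp.1, h p hD hp.2⟩
    · exact Or.inr (Finset.mem_range.2 (by omega))
  have h2 := (Finset.card_le_card h1).trans (Finset.card_union_le _ _)
  rw [Finset.card_range] at h2
  exact_mod_cast h2

/-- the two counting functions differ by a bounded amount -/
lemma count_close {a : ℕ} {b : ℤ} (hba : |b| < a) (hab : IsCoprime (a : ℤ) b) :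
    ∃ D : ℝ, ∀ (S : Set ℕ) (n : ℕ), |(M a b S (1 / ((a : ℝ) - b)) n : ℝ) - count a b S n| ≤ D := by
  classical
  have h2 : b < (a : ℤ) := (abs_lt.1 hba).2
  have key : ∀ p : ℕ, ((a : ℤ) - b).natAbs < p → p.Prime →
      ((W a b (1 / ((a : ℝ) - b)) p).Prime ↔ Prime (((a : ℤ) ^ p - b ^ p) / ((a : ℤ) - b))) := by
    intro p hD hp
    have h3 : ¬ (p : ℤ) ∣ a - b := by
      intro hd
      have h4 := Int.natAbs_dvd_natAbs.2 hd
      rw [Int.natAbs_natCast] at h4
      have h5 := Nat.le_of_dvd (Int.natAbs_pos.2 (by omega)) h4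
      omega
    have h4 := special hba hab hp h3
    rw [← h4, Int.mul_ediv_cancel _ (by omega)]
    exact Nat.prime_iff_prime_int
  refine ⟨((((a : ℤ) - b).natAbs + 1 : ℕ) : ℝ), fun S n => ?_⟩
  have e1 : (M a b S (1 / ((a : ℝ) - b)) n : ℝ) ≤ count a b S n + ((((a : ℤ) - b).natAbs + 1 : ℕ) : ℝ) :=
    card_le_of_eventually ((a : ℤ) - b).natAbs
      (fun p hD hp => ⟨hp.1, hp.2.1, (key p hD hp.1).1 hp.2.2⟩) n
  have e2 : (count a b S n : ℝ) ≤ M a b S (1 / ((a : ℝ) - b)) n + ((((a : ℤ) - b).natAbs + 1 : ℕ) : ℝ) :=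
    card_le_of_eventually ((a : ℤ) - b).natAbs
      (fun p hD hp => ⟨hp.1, hp.2.1, (key p hD hp.1).2 hp.2.2⟩) n
  rw [abs_le]
  constructor <;> linarith

/-- The special values; the window law and the law of the iterated logarithm for all pairs at once;
the same for the exponents in an arbitrary set of primes of infinite weight. -/
theorem result :
    (∀ (a : ℕ) (b : ℤ), 2 ≤ |b| → |b| < a → IsCoprime (a : ℤ) b → ∀ p : ℕ, p.Prime →
      ¬ (p : ℤ) ∣ a - b → (W a b (1 / ((a : ℝ) - b)) p : ℤ) * (a - b) = (a : ℤ) ^ p - b ^ p) ∧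
    (∀ (a : ℕ) (b : ℤ), 2 ≤ |b| → |b| < a → IsCoprime (a : ℤ) b → ∃ D : ℝ, ∀ (S : Set ℕ) (n : ℕ),
      |(M a b S (1 / ((a : ℝ) - b)) n : ℝ) - count a b S n| ≤ D) ∧
    (∃ C : ℕ → ℤ → ℝ, ∀ᵐ β : ℝ, 0 < β → ∀ (a : ℕ) (b : ℤ), 2 ≤ |b| → |b| < a →
      (∀ᶠ n : ℕ in atTop, ∀ n' ≥ n,
        |((M a b Set.univ β n' : ℝ) - M a b Set.univ β n) - κ a * Real.log ((n' : ℝ) / n)| ≤
          C a b * (√(Real.log ((n' : ℝ) / n) * Real.log (Real.log n')) + Real.log (Real.log n'))) ∧
      (∀ᶠ n : ℕ in atTop, |(M a b Set.univ β n : ℝ) - κ a * Real.log n| ≤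
        C a b * √(Real.log n * Real.log (Real.log (Real.log n))))) ∧
    (∃ C : ℕ → ℤ → ℝ, ∀ S : Set ℕ, Tendsto (fun n => V S n) atTop atTop →
      ∀ᵐ β : ℝ, 0 < β → ∀ (a : ℕ) (b : ℤ), 2 ≤ |b| → |b| < a →
      (∀ᶠ n : ℕ in atTop, ∀ n' ≥ n,
        |((M a b S β n' : ℝ) - M a b S β n) - κ a * (V S n' - V S n)| ≤
          C a b * (√((V S n' - V S n) * Real.log (V S n')) + Real.log (V S n'))) ∧
      (∀ᶠ n : ℕ in atTop, |(M a b S β n : ℝ) - κ a * V S n| ≤
        C a b * √(V S n * Real.log (Real.log (V S n))))) := by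
  have eM : ∀ a b S β n, Pool.Agent.N176.SH.MW a b S β n = M a b S β n := by
    intro a b S β n
    unfold Pool.Agent.N176.SH.MW M W Pool.Agent.N176.SH.WW
    rfl
  have eV : ∀ S n, Pool.Agent.N176.OW.VS S n = V S n := fun S n => rfl
  have ek : ∀ a, Pool.Agent.N176.OW.kap a = κ a := fun a => rfl
  refine ⟨fun a b _ h2 h3 p hp hpd => special h2 h3 hp hpd, fun a b _ h2 h3 => count_close h2 h3, ?_, ?_⟩
  · obtain ⟨C, hC⟩ := Pool.Agent.N176.SH.pairs_univ Pool.Agent.N176.SH.All.win'
      Pool.Agent.N176.SH.All.lil' Pool.Agent.N372.SH.okp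
    simp only [eM, ek] at hC
    refine ⟨C, ?_⟩
    filter_upwards [hC] with β h hβ a b h1 h2
    exact h hβ a b (by omega) h2
  · obtain ⟨C, hC⟩ := Pool.Agent.N176.SH.pairs_set Pool.Agent.N176.SH.All.win'
      Pool.Agent.N176.SH.All.lil' Pool.Agent.N372.SH.okp
    simp only [eM, ek, eV] at hC
    refine ⟨C, fun S hS => ?_⟩
    filter_upwards [hC S hS] with β h hβ a b h1 h2
    exact h hβ a b (by omega) h2

end Pool.Agent.Results.MP_de9007_nt.WindowsForAllPairs
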